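import Pool.Agent.Helper62.BM.Stm

/-!
# Persistence of linear independence and the auxiliary polynomial
-/

set_option autoImplicit false

open Polynomial Finset

namespace Pool.Agent.Helper82.BM

open Pool.Agent.Helper62.BM

/-- Persistence of linear independence. -/
theorem persist {R : Type} [CommRing R] [IsDomain R] {σ J : Type} (B : Finset J)
    (w : J → MvPolynomial σ R)
    (hind : ∀ c : J → R, ∑ e ∈ B, MvPolynomial.C (c e) * w e = 0 → ∀ e ∈ B, c e = 0) :
    ∃ r : R, r ≠ 0 ∧ ∀ (R' : Type) [CommRing R'] [IsDomain R'] (ψ : R →+* R'), ψ r ≠ 0 →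
      ∀ c : J → R', ∑ e ∈ B, MvPolynomial.C (c e) * MvPolynomial.map ψ (w e) = 0 →
        ∀ e ∈ B, c e = 0 := by
  classical
  let K := FractionRing R
  let supp : Finset (σ →₀ ℕ) := B.biUnion fun e => (w e).support
  let M : Matrix supp B K := Matrix.of fun m e => algebraMap R K ((w e).coeff m)
  have hinj : Function.Injective M.mulVecLin := by
    rw [injective_iff_map_eq_zero]
    intro x hx
    obtain ⟨d, hd⟩ := IsLocalization.exist_integer_multiples (nonZeroDivisors R) Finset.univ x
    choose c hc using fun e => hd e (Finset.mem_univ e)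
    have hd0 : (d : R) ≠ 0 := nonZeroDivisors.coe_ne_zero d
    have h1 : ∑ e ∈ B, MvPolynomial.C (if h : e ∈ B then c ⟨e, h⟩ else 0) * w e = 0 := by
      ext m
      rw [MvPolynomial.coeff_sum, MvPolynomial.coeff_zero]
      by_cases hm : m ∈ supp
      · apply IsFractionRing.injective R K
        have h2 : (M.mulVecLin x) ⟨m, hm⟩ = 0 := by rw [hx]; rfl
        rw [Matrix.mulVecLin_apply, Matrix.mulVec, dotProduct] at h2
        rw [map_zero, map_sum, ← Finset.sum_coe_sort B]
        have h3 : algebraMap R K d * ∑ e : B, M ⟨m, hm⟩ e * x e = 0 := by rw [h2, mul_zero]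
        rw [← h3, Finset.mul_sum]
        refine Finset.sum_congr rfl fun e _ => ?_
        rw [MvPolynomial.coeff_C_mul, map_mul, dif_pos e.2, hc ⟨e, e.2⟩]
        simp only [M, Matrix.of_apply, Algebra.smul_def]
        ring
      · refine Finset.sum_eq_zero fun e he => ?_
        rw [MvPolynomial.coeff_C_mul]
        have : (w e).coeff m = 0 := by
          by_contra h
          exact hm (Finset.mem_biUnion.2 ⟨e, he, MvPolynomial.mem_support_iff.2 h⟩)
        rw [this, mul_zero]
    have h4 := hind _ h1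
    funext e
    have h5 := h4 e e.2
    rw [dif_pos e.2] at h5
    have h6 := hc e
    rw [show c e = 0 from h5, map_zero, Algebra.smul_def] at h6
    have h7 : algebraMap R K d ≠ 0 := by
      intro h
      exact hd0 (IsFractionRing.injective R K (by rw [h, map_zero]))
    exact (mul_eq_zero.1 h6.symm).resolve_left h7
  obtain ⟨g, hg⟩ := LinearMap.exists_leftInverse_of_injective M.mulVecLin
    (LinearMap.ker_eq_bot.2 hinj)
  set G : Matrix B supp K := LinearMap.toMatrix' g with hG
  have hGM : G * M = 1 := by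
    have h1 := congrArg LinearMap.toMatrix' hg
    rw [LinearMap.toMatrix'_comp, LinearMap.toMatrix'_id] at h1
    rw [← h1, hG]
    congr 1
    exact (LinearMap.toMatrix'_toLin' M).symm
  obtain ⟨d, hd⟩ := IsLocalization.exist_integer_multiples (nonZeroDivisors R) Finset.univ
    (fun x : B × supp => G x.1 x.2)
  choose G' hG' using fun x => hd x (Finset.mem_univ x)
  have hd0 : (d : R) ≠ 0 := nonZeroDivisors.coe_ne_zero d
  have key : ∀ e' e : B, ∑ m : supp, G' (e', m) * (w e).coeff m = if e' = e then (d : R) else 0 := by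
    intro e' e
    apply IsFractionRing.injective R K
    have h1 : (G * M) e' e = (1 : Matrix B B K) e' e := by rw [hGM]
    rw [Matrix.mul_apply, Matrix.one_apply] at h1
    have h2 : algebraMap R K d * ∑ m, G e' m * M m e = algebraMap R K d * if e' = e then 1 else 0 := by
      rw [h1]
    rw [map_sum]
    calc ∑ m : supp, algebraMap R K (G' (e', m) * (w e).coeff m) =
        algebraMap R K d * ∑ m, G e' m * M m e := by
          rw [Finset.mul_sum]
          refine Finset.sum_congr rfl fun m _ => ?_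
          rw [map_mul, hG' (e', m)]
          simp only [M, Matrix.of_apply, Algebra.smul_def]
          ring
      _ = _ := by
          rw [h2]
          split_ifs <;> simp
  refine ⟨d, hd0, fun R' _ _ ψ hψ c hc e' he' => ?_⟩
  have h1 : ∀ m, ∑ e ∈ B, c e * ψ ((w e).coeff m) = 0 := by
    intro m
    have := congrArg (MvPolynomial.coeff m) hc
    rw [MvPolynomial.coeff_sum, MvPolynomial.coeff_zero] at this
    rw [← this]
    refine Finset.sum_congr rfl fun e _ => ?_
    rw [MvPolynomial.coeff_C_mul, MvPolynomial.coeff_map]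
  have h2 : ∑ m : supp, ψ (G' (⟨e', he'⟩, m)) * ∑ e ∈ B, c e * ψ ((w e).coeff m) = 0 :=
    Finset.sum_eq_zero fun m _ => by rw [h1, mul_zero]
  have h3 : ∑ m : supp, ψ (G' (⟨e', he'⟩, m)) * ∑ e ∈ B, c e * ψ ((w e).coeff m) =
      ∑ e : B, c e * ψ (∑ m : supp, G' (⟨e', he'⟩, m) * (w e).coeff m) := by
    simp only [Finset.mul_sum, map_sum]
    rw [Finset.sum_comm, ← Finset.sum_coe_sort B]
    refine Finset.sum_congr rfl fun e _ => Finset.sum_congr rfl fun m _ => ?_
    rw [map_mul]
    ring
  rw [h3] at h2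
  have h4 : ∑ e : B, c e * ψ (∑ m : supp, G' (⟨e', he'⟩, m) * (w e).coeff m) = c e' * ψ d := by
    rw [Finset.sum_eq_single (⟨e', he'⟩ : B)]
    · rw [key, if_pos rfl]
    · intro b _ hb
      rw [key, if_neg (Ne.symm hb), map_zero, mul_zero]
    · intro h
      exact absurd (Finset.mem_univ _) h
  rw [h4] at h2
  exact (mul_eq_zero.1 h2).resolve_right hψ

/-- The auxiliary polynomial. -/
noncomputable def auxG {R k σ J : Type} [CommRing R] [Field k] (ψ : R →+* k[X])
    (B : Finset J) (w : J → MvPolynomial σ R) (β : ℕ) (c : ℕ → J → k[X]) :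
    MvPolynomial σ k[X][X] :=
  ∑ b ∈ range β, ∑ e ∈ B, MvPolynomial.C (X ^ b * C (c b e)) *
    MvPolynomial.map (C.comp ψ) (w e)

theorem auxG_coeff {R k σ J : Type} [CommRing R] [Field k] (ψ : R →+* k[X])
    (B : Finset J) (w : J → MvPolynomial σ R) (β : ℕ) (c : ℕ → J → k[X]) (m : σ →₀ ℕ) :
    (auxG ψ B w β c).coeff m =
      ∑ b ∈ range β, X ^ b * C (∑ e ∈ B, c b e * ψ ((w e).coeff m)) := by
  unfold auxG
  rw [MvPolynomial.coeff_sum]
  refine Finset.sum_congr rfl fun b _ => ?_
  rw [MvPolynomial.coeff_sum, map_sum, Finset.mul_sum]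
  refine Finset.sum_congr rfl fun e _ => ?_
  rw [MvPolynomial.coeff_C_mul, MvPolynomial.coeff_map, RingHom.comp_apply, map_mul, mul_assoc]

theorem auxG_coeff2 {R k σ J : Type} [CommRing R] [Field k] (ψ : R →+* k[X])
    (B : Finset J) (w : J → MvPolynomial σ R) (β : ℕ) (c : ℕ → J → k[X]) (m : σ →₀ ℕ) (b : ℕ) :
    ((auxG ψ B w β c).coeff m).coeff b =
      if b < β then ∑ e ∈ B, c b e * ψ ((w e).coeff m) else 0 := by
  rw [auxG_coeff, Polynomial.finsetSum_coeff]
  simp only [Polynomial.coeff_X_pow_mul', Polynomial.coeff_C]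
  by_cases hb : b < β
  · rw [if_pos hb, Finset.sum_eq_single b]
    · simp
    · intro b' _ hb'
      split_ifs with h1 h2
      · omega
      · rfl
      · rfl
    · intro h
      exact absurd (Finset.mem_range.2 hb) h
  · rw [if_neg hb]
    refine Finset.sum_eq_zero fun b' hb' => ?_
    rw [Finset.mem_range] at hb'
    split_ifs with h1 h2
    · omega
    · rfl
    · rfl

/-- The auxiliary polynomial is not zero. -/
theorem auxG_ne {R k σ J : Type} [CommRing R] [Field k] (ψ : R →+* k[X])
    (B : Finset J) (w : J → MvPolynomial σ R) (β : ℕ) (c : ℕ → J → k[X])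
    (hper : ∀ c : J → k[X], ∑ e ∈ B, MvPolynomial.C (c e) * MvPolynomial.map ψ (w e) = 0 →
        ∀ e ∈ B, c e = 0) (b : ℕ) (hb : b < β) (e : J) (he : e ∈ B) (hc : c b e ≠ 0) :
    auxG ψ B w β c ≠ 0 := by
  intro h0
  refine hc (hper (c b) ?_ e he)
  ext m
  have h1 := auxG_coeff2 ψ B w β c m b
  rw [h0, if_pos hb, MvPolynomial.coeff_zero, Polynomial.coeff_zero] at h1
  rw [MvPolynomial.coeff_sum, MvPolynomial.coeff_zero]
  rw [show (∑ x ∈ B, MvPolynomial.coeff m (MvPolynomial.C (c b x) * MvPolynomial.map ψ (w x))) =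
    ∑ e ∈ B, c b e * ψ ((w e).coeff m) from Finset.sum_congr rfl fun e _ => by
      rw [MvPolynomial.coeff_C_mul, MvPolynomial.coeff_map], ← h1]

/-- The degrees of the auxiliary polynomial. -/
theorem auxG_totalDegree {R k σ J : Type} [CommRing R] [Field k] (ψ : R →+* k[X])
    (B : Finset J) (w : J → MvPolynomial σ R) (β : ℕ) (c : ℕ → J → k[X]) (d : ℕ)
    (hd : ∀ e ∈ B, (w e).totalDegree ≤ d) : (auxG ψ B w β c).totalDegree ≤ d := by
  unfold auxG
  refine (MvPolynomial.totalDegree_finsetSum _ _).trans (Finset.sup_le fun b _ => ?_)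
  refine (MvPolynomial.totalDegree_finsetSum _ _).trans (Finset.sup_le fun e he => ?_)
  refine (MvPolynomial.totalDegree_mul _ _).trans ?_
  rw [MvPolynomial.totalDegree_C, zero_add]
  refine le_trans ?_ (hd e he)
  unfold MvPolynomial.totalDegree
  exact Finset.sup_mono (MvPolynomial.support_map_subset _ _)

theorem auxG_degT {R k σ J : Type} [CommRing R] [Field k] (ψ : R →+* k[X])
    (B : Finset J) (w : J → MvPolynomial σ R) {β : ℕ} (hβ : 0 < β) (c : ℕ → J → k[X])
    (m : σ →₀ ℕ) : ((auxG ψ B w β c).coeff m).natDegree < β := by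
  refine lt_of_le_of_lt (Polynomial.natDegree_le_iff_coeff_eq_zero.2 fun b hb => ?_)
    (Nat.sub_lt hβ one_pos)
  rw [auxG_coeff2, if_neg (by omega)]

theorem auxG_degX {R k σ J : Type} [CommRing R] [Field k] (ψ : R →+* k[X])
    (B : Finset J) (w : J → MvPolynomial σ R) (β : ℕ) (c : ℕ → J → k[X]) {A₀ d : ℕ}
    (hA : 0 < A₀) (hc : ∀ b, ∀ e ∈ B, (c b e).natDegree < A₀)
    (hw : ∀ e ∈ B, ∀ m, (ψ ((w e).coeff m)).natDegree ≤ d) (m : σ →₀ ℕ) (b : ℕ) :
    (((auxG ψ B w β c).coeff m).coeff b).natDegree < A₀ + d := by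
  rw [auxG_coeff2]
  split_ifs
  · refine lt_of_le_of_lt (Polynomial.natDegree_sum_le_of_forall_le (n := A₀ - 1 + d) _ _ fun e he => ?_)
      (by omega)
    refine Polynomial.natDegree_mul_le.trans (add_le_add ?_ (hw e he m))
    have := hc b e he
    omega
  · rw [Polynomial.natDegree_zero]
    omega

/-- The evaluation of the auxiliary polynomial. -/
theorem auxG_eval {R k σ J : Type} [CommRing R] [Field k] (p : ℕ) (ψ : R →+* k[X])
    (B : Finset J) (w : J → MvPolynomial σ R) (β : ℕ) (c : ℕ → J → k[X]) (S : σ → KX k) :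
    MvPolynomial.eval₂ (evT k p) S (auxG ψ B w β c) =
      ∑ b ∈ range β, ι k (X ^ (p * b)) * ∑ e ∈ B, ι k (c b e) *
        MvPolynomial.eval₂ ((ι k).comp ψ) S (w e) := by
  have hC : (evT k p).comp (C.comp ψ) = (ι k).comp ψ := by
    ext r
    simp [evT]
  unfold auxG
  rw [MvPolynomial.eval₂_sum]
  refine Finset.sum_congr rfl fun b _ => ?_
  rw [MvPolynomial.eval₂_sum, Finset.mul_sum]
  refine Finset.sum_congr rfl fun e _ => ?_
  rw [MvPolynomial.eval₂_mul, MvPolynomial.eval₂_C, MvPolynomial.eval₂_map, hC, ← mul_assoc]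
  congr 1
  simp [evT, pow_mul]
  ring

end Pool.Agent.Helper82.BM
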